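import Pool.Agent.Q4.Swan.Padic

/-!
# A Hopf order without the Swan property

For `K = ℚ_2(√3)` and `G = C_4` there is a Hopf order `Λ` in `K[G]` such that the Swan map
`φ_Λ : G_0^R(Λ) → G_0(K[G])` is not injective.
-/

namespace Pool.Agent.Results.MP_f004b1_al.SwanPropertyFails

open Q4.Swan

/-- There is a quadratic extension `K` of `ℚ_2`, with valuation ring `R`, and an `R`-Hopf order
`Λ` in `K[C_4]` which does not have the Swan property: the map
`φ_Λ : G_0^R(Λ) → G_0(K[C_4])` is not injective. -/
theorem result : ∃ (F : LocalField 2) (Λ : F.Order (Multiplicative (ZMod 4))),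
    Module.finrank ℚ_[2] F.K = 2 ∧ F.SwanNotInjective Λ :=
  main

end Pool.Agent.Results.MP_f004b1_al.SwanPropertyFails
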